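import Mathlib

set_option autoImplicit false
set_option linter.unusedSectionVars false

/-!
Algebraic part of the proof of the labelled antipodal theorem.
Chains are functions from finite sets of signed labels to the field with two elements.
-/

namespace Pool.Agent.Norine

open Finset

variable {α : Type} [DecidableEq α]
variable {L : Type} [Fintype L] [DecidableEq L]

/-- multiplication by a square-zero generator. -/
def X (s : L) : (Finset L → ZMod 2) →ₗ[ZMod 2] (Finset L → ZMod 2) where
  toFun f := fun S => if s ∈ S then f (S.erase s) else 0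
  map_add' f g := by
    funext S
    by_cases h : s ∈ S <;> simp [h]
  map_smul' c f := by
    funext S
    by_cases h : s ∈ S <;> simp [h]

theorem X_apply (s : L) (f : Finset L → ZMod 2) (S : Finset L) :
    X s f S = if s ∈ S then f (S.erase s) else 0 := rfl

theorem X_sq (s : L) (f : Finset L → ZMod 2) : X s (X s f) = 0 := by
  funext S
  simp [X_apply]

theorem X_comm (s t : L) (f : Finset L → ZMod 2) : X s (X t f) = X t (X s f) := by
  by_cases hst : s = t
  · subst hst; rfl
  · funext S
    simp only [X_apply, Finset.mem_erase]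
    have hts : t ≠ s := fun h => hst h.symm
    by_cases hs : s ∈ S <;> by_cases ht : t ∈ S <;> simp [hs, ht, hst, hts, Finset.erase_right_comm]

/-- boundary. -/
def B : (Finset L → ZMod 2) →ₗ[ZMod 2] (Finset L → ZMod 2) where
  toFun f := fun S => ∑ s ∈ Sᶜ, f (insert s S)
  map_add' f g := by
    funext S
    simp [Finset.sum_add_distrib]
  map_smul' c f := by
    funext S
    simp [Finset.mul_sum]

theorem B_apply (f : Finset L → ZMod 2) (S : Finset L) :
    B f S = ∑ s ∈ Sᶜ, f (insert s S) := rfl

theorem add_self2 (x : ZMod 2) : x + x = 0 := by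
  have : ∀ x : ZMod 2, x + x = 0 := by decide
  exact this x

theorem add_self_fun (f : Finset L → ZMod 2) : f + f = 0 := by
  funext S; exact add_self2 _

theorem B_X (s : L) (f : Finset L → ZMod 2) : B (X s f) = f + X s (B f) := by
  funext S
  simp only [B_apply, X_apply, Pi.add_apply]
  by_cases hs : s ∈ S
  · simp only [hs, if_true]
    have h1 : ∀ t ∈ Sᶜ, (if s ∈ insert t S then f ((insert t S).erase s) else 0)
        = f (insert t (S.erase s)) := by
      intro t ht
      have hts : t ≠ s := by
        rintro rfl
        exact (Finset.mem_compl.mp ht) hs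
      rw [if_pos (Finset.mem_insert_of_mem hs), Finset.erase_insert_of_ne hts]
    rw [Finset.sum_congr rfl h1]
    have h2 : (S.erase s)ᶜ = insert s Sᶜ := by
      ext t
      simp only [Finset.mem_compl, Finset.mem_erase, Finset.mem_insert]
      tauto
    rw [h2, Finset.sum_insert (by simpa using hs), Finset.insert_erase hs, ← add_assoc,
      add_self2, zero_add]
  · simp only [hs, if_false, add_zero]
    rw [Finset.sum_eq_single s]
    · simp [hs]
    · intro t ht hts
      have : s ∉ insert t S := by
        simp only [Finset.mem_insert, not_or]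
        exact ⟨fun h => hts h.symm, hs⟩
      simp [this]
    · intro h
      exact absurd (Finset.mem_compl.mpr hs) h

theorem eq_of_add_eq_zero {f g : Finset L → ZMod 2} (h : f + g = 0) : f = g := by
  have : f = f + (g + g) := by rw [add_self_fun, add_zero]
  rw [this, ← add_assoc, h, zero_add]

/-- the unit chain. -/
def one : Finset L → ZMod 2 := fun S => if S = ∅ then 1 else 0

theorem B_one : B (one : Finset L → ZMod 2) = 0 := by
  funext S
  simp only [B_apply, one, Pi.zero_apply]
  apply Finset.sum_eq_zero
  intro s _
  simp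

/-- symmetric double sums vanish. -/
theorem dsum_zero {M : Type} [AddCommMonoid M] (h2 : ∀ x : M, x + x = 0) (D : Finset α)
    (h : α → α → M) (hs : ∀ i ∈ D, ∀ j ∈ D, i ≠ j → h i j = h j i) :
    ∑ i ∈ D, ∑ j ∈ D.erase i, h i j = 0 := by
  rw [Finset.sum_sigma']
  apply Finset.sum_involution (fun p _ => (⟨p.2, p.1⟩ : Σ _ : α, α))
  · rintro ⟨i, j⟩ hp
    simp only [Finset.mem_sigma, Finset.mem_erase] at hp
    simp only
    rw [hs i hp.1 j hp.2.2 (fun e => hp.2.1 e.symm)]
    exact h2 _
  · rintro ⟨i, j⟩ hp _ heq
    simp only [Finset.mem_sigma, Finset.mem_erase] at hp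
    simp only [Sigma.mk.injEq, heq_eq_eq] at heq
    exact hp.2.1 heq.1
  · rintro ⟨i, j⟩ hp
    simp only [Finset.mem_sigma, Finset.mem_erase] at hp ⊢
    exact ⟨hp.2.2, fun e => hp.2.1 e.symm, hp.1⟩
  · rintro ⟨i, j⟩ _
    rfl

theorem dsum_swap {M : Type} [AddCommMonoid M] (D : Finset α) (h : α → α → M) :
    ∑ i ∈ D, ∑ j ∈ D.erase i, h i j = ∑ j ∈ D, ∑ i ∈ D.erase j, h i j := by
  apply Finset.sum_comm'
  intro i j
  simp only [Finset.mem_erase]
  constructor
  · rintro ⟨h1, h2, h3⟩; exact ⟨⟨fun e => h2 e.symm, h1⟩, h3⟩
  · rintro ⟨⟨h1, h2⟩, h3⟩; exact ⟨h2, fun e => h1 e.symm, h3⟩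

/-- one-letter geodesic chain of the face with bottom v and free coordinates D. -/
def G (g : Finset α → L) : ℕ → Finset α → Finset α → (Finset L → ZMod 2)
  | 0, v, _ => X (g v) one
  | n + 1, v, D => X (g v) (∑ i ∈ D, G g n (insert i v) (D.erase i))

/-- two-letter geodesic chain. -/
def F (ga gb : Finset α → L) : ℕ → Finset α → Finset α → (Finset L → ZMod 2)
  | 0, v, D => X (ga v) (G gb 0 v D)
  | n + 1, v, D => X (ga v) (G gb (n + 1) v D + ∑ i ∈ D, F ga gb n (insert i v) (D.erase i))

theorem G_zero (g : Finset α → L) (v D : Finset α) : G g 0 v D = X (g v) one := rfl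

theorem G_succ (g : Finset α → L) (n : ℕ) (v D : Finset α) :
    G g (n + 1) v D = X (g v) (∑ i ∈ D, G g n (insert i v) (D.erase i)) := rfl

theorem F_zero (ga gb : Finset α → L) (v D : Finset α) :
    F ga gb 0 v D = X (ga v) (G gb 0 v D) := rfl

theorem F_succ (ga gb : Finset α → L) (n : ℕ) (v D : Finset α) :
    F ga gb (n + 1) v D
      = X (ga v) (G gb (n + 1) v D + ∑ i ∈ D, F ga gb n (insert i v) (D.erase i)) := rfl

theorem X_G (g : Finset α → L) (n : ℕ) (v D : Finset α) : X (g v) (G g n v D) = 0 := by
  cases n <;> simp [G_zero, G_succ, X_sq]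

theorem X_F (ga gb : Finset α → L) (n : ℕ) (v D : Finset α) : X (ga v) (F ga gb n v D) = 0 := by
  cases n <;> simp only [F_zero, F_succ, X_sq]

/-- boundary of the one-letter chain. -/
theorem B_G (g : Finset α → L) (n : ℕ) (v D : Finset α) (hD : D.card = n + 1)
    (hv : Disjoint v D) :
    B (G g (n + 1) v D)
      = ∑ i ∈ D, (G g n (insert i v) (D.erase i) + G g n v (D.erase i)) := by
  induction n generalizing v D with
  | zero =>
    obtain ⟨i, rfl⟩ := Finset.card_eq_one.mp (by simpa using hD)
    simp [G_succ, G_zero, B_X, B_one]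
  | succ n ih =>
    rw [G_succ, B_X, map_sum]
    have h1 : ∀ i ∈ D, B (G g (n + 1) (insert i v) (D.erase i))
        = ∑ j ∈ D.erase i, G g n (insert j (insert i v)) ((D.erase i).erase j)
          + ∑ j ∈ D.erase i, G g n (insert i v) ((D.erase i).erase j) := by
      intro i hi
      rw [ih (insert i v) (D.erase i) (by rw [Finset.card_erase_of_mem hi, hD]; rfl)
        (by
          rw [Finset.disjoint_insert_left]
          exact ⟨by simp, hv.mono_right (Finset.erase_subset _ _)⟩), Finset.sum_add_distrib]
    rw [Finset.sum_congr rfl h1, Finset.sum_add_distrib, Finset.sum_add_distrib]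
    have h2 : ∑ i ∈ D, ∑ j ∈ D.erase i,
        G g n (insert j (insert i v)) ((D.erase i).erase j) = 0 := by
      apply dsum_zero (fun x => add_self_fun x)
      intro i _ j _ _
      rw [Finset.insert_comm, Finset.erase_right_comm]
    rw [h2, zero_add, dsum_swap, map_sum]
    congr 1
    apply Finset.sum_congr rfl
    intro j hj
    rw [G_succ]
    congr 1
    apply Finset.sum_congr rfl
    intro i _
    rw [Finset.erase_right_comm]

/-- boundary of the two-letter chain, dimension zero. -/
theorem B_F_zero (ga gb : Finset α → L) (v : Finset α) :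
    B (F ga gb 0 v ∅) = G ga 0 v ∅ + G gb 0 v ∅ := by
  simp [F_zero, G_zero, B_X, B_one, add_comm]

/-- boundary of the two-letter chain. -/
theorem B_F (ga gb : Finset α → L) (n : ℕ) (v D : Finset α) (hD : D.card = n + 1)
    (hv : Disjoint v D) :
    B (F ga gb (n + 1) v D)
      = G ga (n + 1) v D + G gb (n + 1) v D
        + ∑ i ∈ D, (F ga gb n (insert i v) (D.erase i) + F ga gb n v (D.erase i)) := by
  induction n generalizing v D with
  | zero =>
    obtain ⟨i, rfl⟩ := Finset.card_eq_one.mp (by simpa using hD)
    have hi : ({i} : Finset α).erase i = ∅ := by simp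
    rw [F_succ, B_X, map_add, B_G gb 0 v {i} hD hv]
    simp only [Finset.sum_singleton, hi]
    rw [B_F_zero]
    rw [show G ga (0 + 1) v {i} = X (ga v) (G ga 0 (insert i v) ∅) by
      rw [G_succ, Finset.sum_singleton, hi]]
    rw [F_zero, F_zero]
    have hx : G gb 0 (insert i v) ∅ + G gb 0 v ∅ + (G ga 0 (insert i v) ∅ + G gb 0 (insert i v) ∅)
        = G gb 0 v ∅ + G ga 0 (insert i v) ∅ + (G gb 0 (insert i v) ∅ + G gb 0 (insert i v) ∅) := by
      abel
    rw [hx, add_self_fun, add_zero, map_add]
    abel
  | succ n ih =>
    rw [F_succ, B_X, map_add, B_G gb (n + 1) v D hD hv, map_sum]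
    have h1 : ∀ i ∈ D, B (F ga gb (n + 1) (insert i v) (D.erase i))
        = (G ga (n + 1) (insert i v) (D.erase i) + G gb (n + 1) (insert i v) (D.erase i))
          + (∑ j ∈ D.erase i, F ga gb n (insert j (insert i v)) ((D.erase i).erase j)
          + ∑ j ∈ D.erase i, F ga gb n (insert i v) ((D.erase i).erase j)) := by
      intro i hi
      rw [ih (insert i v) (D.erase i) (by rw [Finset.card_erase_of_mem hi, hD]; rfl)
        (by
          rw [Finset.disjoint_insert_left]
          exact ⟨by simp, hv.mono_right (Finset.erase_subset _ _)⟩), Finset.sum_add_distrib]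
    rw [Finset.sum_congr rfl h1]
    simp only [Finset.sum_add_distrib]
    have h2 : ∑ i ∈ D, ∑ j ∈ D.erase i,
        F ga gb n (insert j (insert i v)) ((D.erase i).erase j) = 0 := by
      apply dsum_zero (fun x => add_self_fun x)
      intro i _ j _ _
      rw [Finset.insert_comm, Finset.erase_right_comm]
    rw [h2, zero_add]
    rw [dsum_swap D (fun i j => F ga gb n (insert i v) ((D.erase i).erase j))]
    have h3 : ∑ j ∈ D, F ga gb (n + 1) v (D.erase j)
        = X (ga v) (∑ j ∈ D, G gb (n + 1) v (D.erase j)
          + ∑ j ∈ D, ∑ i ∈ D.erase j, F ga gb n (insert i v) ((D.erase i).erase j)) := by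
      rw [← Finset.sum_add_distrib, map_sum]
      apply Finset.sum_congr rfl
      intro j hj
      rw [F_succ]
      congr 2
      apply Finset.sum_congr rfl
      intro i _
      rw [Finset.erase_right_comm]
    rw [h3, G_succ ga]
    set P := ∑ i ∈ D, G gb (n + 1) (insert i v) (D.erase i)
    set Q := ∑ j ∈ D, G gb (n + 1) v (D.erase j)
    set R := ∑ i ∈ D, G ga (n + 1) (insert i v) (D.erase i)
    set T := ∑ j ∈ D, ∑ i ∈ D.erase j, F ga gb n (insert i v) ((D.erase i).erase j)
    have hx : P + Q + (R + P + T) = (R + (Q + T)) + (P + P) := by abel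
    rw [hx, add_self_fun, add_zero, map_add (X (ga v)) R]
    abel


/-- the two middles of a square. -/
theorem middle_term (a b : Finset α → L) (v m u : Finset α) (W : Finset L → ZMod 2)
    (hWa : X (a u) W = 0) (hWb : X (b u) W = 0)
    (h1 : a m = a v ∨ b m = b v) (h2 : a m = a u ∨ b m = b u) :
    X (a v) (X (b m) W) + X (b v) (X (a m) W)
      = if a v = a u ∨ b v = b u then 0 else X (a v) (X (b v) W) := by
  rcases h1 with h1 | h1 <;> rcases h2 with h2 | h2
  · have hav : a v = a u := h1.symm.trans h2
    rw [if_pos (Or.inl hav)]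
    rw [X_comm (a v) (b m), hav, hWa, h2, hWa, map_zero, map_zero, add_zero]
  · rw [h1, h2, hWb, map_zero, zero_add, X_comm]
    split_ifs with h
    · rcases h with h | h
      · rw [h, X_comm, hWa, map_zero]
      · rw [h, hWb, map_zero]
    · rfl
  · rw [h1, h2, hWa, map_zero, add_zero]
    split_ifs with h
    · rcases h with h | h
      · rw [h, X_comm, hWa, map_zero]
      · rw [h, hWb, map_zero]
    · rfl
  · have hbv : b v = b u := h1.symm.trans h2
    rw [if_pos (Or.inr hbv)]
    rw [h2, hWb, map_zero, zero_add, X_comm, hbv, hWb, map_zero]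

theorem alpha_term (a b : Finset α → L) (hab : ∀ v i, a (insert i v) = a v ∨ b (insert i v) = b v)
    (n : ℕ) (v D : Finset α) (i : α) :
    X (a v) (X (b (insert i v)) (G a n (insert i v) D))
      = X (b v) (X (a v) (G a n (insert i v) D)) := by
  rcases hab v i with h | h
  · rw [X_comm (a v), ← h, X_G, map_zero, map_zero]
  · rw [h, X_comm]

/-- the chain of geodesics does not depend on which letter comes first. -/
theorem F_comm (a b : Finset α → L) (hab : ∀ v i, a (insert i v) = a v ∨ b (insert i v) = b v)
    (n : ℕ) (v D : Finset α) : F a b n v D = F b a n v D := by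
  induction n using Nat.strong_induction_on generalizing v D with
  | _ n ih =>
    match n with
    | 0 => simp only [F_zero, G_zero, X_comm]
    | 1 =>
      have key : ∀ (a b : Finset α → L)
          (_ : ∀ v i, a (insert i v) = a v ∨ b (insert i v) = b v),
          (∀ i ∈ D, F a b 0 (insert i v) (D.erase i) = F b a 0 (insert i v) (D.erase i)) →
          F a b 1 v D = X (a v) (G b 1 v D) + X (b v) (G a 1 v D) := by
        intro a b hab hF
        rw [F_succ, map_add, Finset.sum_congr rfl hF, G_succ a, map_sum, map_sum, map_sum]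
        congr 1
        apply Finset.sum_congr rfl
        intro i _
        rw [F_zero]
        exact alpha_term a b hab 0 v (D.erase i) i
      rw [key a b hab (fun i _ => ih 0 (by omega) _ _),
        key b a (fun v i => (hab v i).symm) (fun i _ => (ih 0 (by omega) _ _).symm), add_comm]
    | n + 2 =>
      have key : ∀ (a b : Finset α → L)
          (_ : ∀ v i, a (insert i v) = a v ∨ b (insert i v) = b v),
          (∀ i ∈ D, F a b (n + 1) (insert i v) (D.erase i)
            = F b a (n + 1) (insert i v) (D.erase i)) →
          F a b (n + 2) v D = (X (a v) (G b (n + 2) v D) + X (b v) (G a (n + 2) v D))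
            + ∑ i ∈ D, ∑ j ∈ D.erase i, X (a v) (X (b (insert i v))
                (F b a n (insert j (insert i v)) ((D.erase i).erase j))) := by
        intro a b hab hF
        rw [F_succ, map_add, Finset.sum_congr rfl hF, G_succ a, map_sum, map_sum, map_sum,
          add_assoc (X (a v) (G b (n + 2) v D)), ← Finset.sum_add_distrib]
        congr 1
        apply Finset.sum_congr rfl
        intro i _
        rw [F_succ, map_add, map_add, alpha_term a b hab (n + 1) v (D.erase i) i, map_sum, map_sum]
      rw [key a b hab (fun i _ => ih (n + 1) (by omega) _ _),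
        key b a (fun v i => (hab v i).symm) (fun i _ => (ih (n + 1) (by omega) _ _).symm),
        add_comm (X (b v) _)]
      congr 1
      have hz : ∑ i ∈ D, ∑ j ∈ D.erase i,
          (X (a v) (X (b (insert i v)) (F b a n (insert j (insert i v)) ((D.erase i).erase j)))
          + X (b v) (X (a (insert i v)) (F a b n (insert j (insert i v)) ((D.erase i).erase j))))
          = 0 := by
        apply dsum_zero (fun x => add_self_fun x)
        intro i _ j _ _
        have hu : insert i (insert j v) = insert j (insert i v) := Finset.insert_comm _ _ _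
        have hE : (D.erase j).erase i = (D.erase i).erase j := Finset.erase_right_comm
        rw [hu, hE]
        set u := insert j (insert i v) with hudef
        set E := (D.erase i).erase j
        have hFF : F b a n u E = F a b n u E := (ih n (by omega) _ _).symm
        have hWa : X (a u) (F a b n u E) = 0 := X_F a b n u E
        have hWb : X (b u) (F a b n u E) = 0 := by rw [← hFF]; exact X_F b a n u E
        rw [hFF]
        have hui : u = insert i (insert j v) := hu.symm
        rw [middle_term a b v (insert i v) u _ hWa hWb (hab v i)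
          ((hab (insert i v) j).imp Eq.symm Eq.symm),
          middle_term a b v (insert j v) u _ hWa hWb (hab v j)
          (by
            rw [hui]
            exact (hab (insert j v) i).imp Eq.symm Eq.symm)]
      simp only [Finset.sum_add_distrib] at hz
      exact eq_of_add_eq_zero hz

/-- back recursion of the one-letter chain. -/
theorem G_back (g : Finset α → L) (n : ℕ) (v D : Finset α) (hD : D.card = n + 1) :
    G g (n + 1) v D = X (g (v ∪ D)) (∑ i ∈ D, G g n v (D.erase i)) := by
  induction n generalizing v D with
  | zero =>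
    obtain ⟨i, rfl⟩ := Finset.card_eq_one.mp (by simpa using hD)
    have hu : v ∪ {i} = insert i v := by ext x; simp
    simp [G_succ, G_zero, hu, X_comm (g v)]
  | succ n ih =>
    rw [G_succ]
    have h1 : ∀ i ∈ D, G g (n + 1) (insert i v) (D.erase i)
        = X (g (v ∪ D)) (∑ j ∈ D.erase i, G g n (insert i v) ((D.erase i).erase j)) := by
      intro i hi
      rw [ih (insert i v) (D.erase i) (by rw [Finset.card_erase_of_mem hi, hD]; rfl)]
      congr 3
      ext x
      simp only [Finset.mem_union, Finset.mem_insert, Finset.mem_erase]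
      by_cases hx : x = i
      · subst hx; simp [hi]
      · simp [hx]
    rw [Finset.sum_congr rfl h1, ← map_sum, X_comm, dsum_swap, map_sum]
    congr 1
    apply Finset.sum_congr rfl
    intro j hj
    rw [G_succ]
    congr 1
    apply Finset.sum_congr rfl
    intro i _
    rw [Finset.erase_right_comm]

/-- back recursion of the two-letter chain. -/
theorem F_back_zero (ga gb : Finset α → L) (v : Finset α) :
    F ga gb 0 v ∅ = X (gb v) (G ga 0 v ∅) := by
  rw [F_zero, G_zero, G_zero, X_comm]

theorem F_back (ga gb : Finset α → L) (n : ℕ) (v D : Finset α) (hD : D.card = n + 1) :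
    F ga gb (n + 1) v D
      = X (gb (v ∪ D)) (G ga (n + 1) v D + ∑ i ∈ D, F ga gb n v (D.erase i)) := by
  induction n generalizing v D with
  | zero =>
    obtain ⟨i, rfl⟩ := Finset.card_eq_one.mp (by simpa using hD)
    have hu : v ∪ {i} = insert i v := by ext x; simp
    simp only [F_succ, F_zero, G_succ, G_zero, hu, Finset.sum_singleton, map_add]
    rw [X_comm (gb v) (gb (insert i v)), X_comm (ga v) (gb (insert i v)),
      X_comm (ga (insert i v)) (gb (insert i v)), X_comm (ga v) (gb (insert i v)), add_comm]
  | succ n ih =>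
    rw [F_succ, G_back gb (n + 1) v D hD]
    have h1 : ∀ i ∈ D, F ga gb (n + 1) (insert i v) (D.erase i)
        = X (gb (v ∪ D)) (G ga (n + 1) (insert i v) (D.erase i)
          + ∑ j ∈ D.erase i, F ga gb n (insert i v) ((D.erase i).erase j)) := by
      intro i hi
      rw [ih (insert i v) (D.erase i) (by rw [Finset.card_erase_of_mem hi, hD]; rfl)]
      congr 3
      ext x
      simp only [Finset.mem_union, Finset.mem_insert, Finset.mem_erase]
      by_cases hx : x = i
      · subst hx; simp [hi]
      · simp [hx]
    rw [Finset.sum_congr rfl h1, ← map_sum, ← map_add, X_comm]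
    congr 1
    rw [Finset.sum_add_distrib, dsum_swap]
    have h3 : ∑ j ∈ D, F ga gb (n + 1) v (D.erase j)
        = X (ga v) (∑ j ∈ D, G gb (n + 1) v (D.erase j)
          + ∑ j ∈ D, ∑ i ∈ D.erase j, F ga gb n (insert i v) ((D.erase i).erase j)) := by
      rw [← Finset.sum_add_distrib, map_sum]
      apply Finset.sum_congr rfl
      intro j hj
      rw [F_succ]
      congr 2
      apply Finset.sum_congr rfl
      intro i _
      rw [Finset.erase_right_comm]
    rw [h3, G_succ ga, ← map_add]
    congr 1
    abel

/-- size of the support of the one-letter chain. -/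
theorem G_card (g : Finset α → L) (n : ℕ) (v D : Finset α) (S : Finset L)
    (h : G g n v D S ≠ 0) : S.card = n + 1 := by
  induction n generalizing v D S with
  | zero =>
    rw [G_zero, X_apply] at h
    by_cases hs : g v ∈ S
    · rw [if_pos hs] at h
      have h0 : S.erase (g v) = ∅ := by
        by_contra hc
        exact h (by simp [one, hc])
      have := Finset.card_erase_of_mem hs
      rw [h0] at this
      have hp : 0 < S.card := Finset.card_pos.mpr ⟨_, hs⟩
      simp only [Finset.card_empty] at this
      omega
    · rw [if_neg hs] at h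
      exact absurd rfl h
  | succ n ih =>
    rw [G_succ, X_apply] at h
    by_cases hs : g v ∈ S
    · rw [if_pos hs, Finset.sum_apply] at h
      obtain ⟨i, _, hi⟩ := Finset.exists_ne_zero_of_sum_ne_zero h
      have h1 := ih _ _ _ hi
      have h2 := Finset.card_erase_of_mem hs
      have hp : 0 < S.card := Finset.card_pos.mpr ⟨_, hs⟩
      omega
    · rw [if_neg hs] at h
      exact absurd rfl h

/-- labels occurring in the one-letter chain are values of g. -/
theorem G_supp (g : Finset α → L) (P : L → Prop) (hP : ∀ v, P (g v)) (n : ℕ)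
    (v D : Finset α) (S : Finset L) (h : G g n v D S ≠ 0) : ∀ s ∈ S, P s := by
  induction n generalizing v D S with
  | zero =>
    rw [G_zero, X_apply] at h
    by_cases hs : g v ∈ S
    · rw [if_pos hs] at h
      have h0 : S.erase (g v) = ∅ := by
        by_contra hc
        exact h (by simp [one, hc])
      intro s hsS
      by_cases hsg : s = g v
      · rw [hsg]; exact hP v
      · have : s ∈ S.erase (g v) := Finset.mem_erase.mpr ⟨hsg, hsS⟩
        rw [h0] at this
        exact absurd this (Finset.notMem_empty _)
    · rw [if_neg hs] at h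
      exact absurd rfl h
  | succ n ih =>
    rw [G_succ, X_apply] at h
    by_cases hs : g v ∈ S
    · rw [if_pos hs, Finset.sum_apply] at h
      obtain ⟨i, _, hi⟩ := Finset.exists_ne_zero_of_sum_ne_zero h
      intro s hsS
      by_cases hsg : s = g v
      · rw [hsg]; exact hP v
      · exact ih _ _ _ hi s (Finset.mem_erase.mpr ⟨hsg, hsS⟩)
    · rw [if_neg hs] at h
      exact absurd rfl h

section signed

variable {m : ℕ}

/-- One half of the support argument. -/
theorem F_supp_aux (ga gb : Finset α → Fin m × Bool) (hb : ∀ v, (gb v).2 = false)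
    (n : ℕ) (v D : Finset α) (S : Finset (Fin m × Bool)) (z : Fin m)
    (hz1 : (z, true) ∈ S) (hz2 : (z, false) ∈ S)
    (ih : ∀ i ∈ D, ∀ S : Finset (Fin m × Bool), (z, true) ∈ S → (z, false) ∈ S →
      ∀ k, k + 1 = n → F ga gb k (insert i v) (D.erase i) S = 0)
    (h : F ga gb n v D S ≠ 0) (ha : (ga v).2 = true) : ga v = (z, true) := by
  by_contra hne
  have hz2' : (z, false) ≠ ga v := by
    intro he
    rw [← he] at ha
    simp at ha
  have hG : ∀ k (S : Finset (Fin m × Bool)), (z, true) ∈ S → G gb k v D S = 0 := by
    intro k S hS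
    by_contra hc
    have := G_supp gb (fun s => s.2 = false) hb k v D S hc (z, true) hS
    simp at this
  have e1 : (z, true) ∈ S.erase (ga v) := Finset.mem_erase.mpr ⟨fun e => hne e.symm, hz1⟩
  have e2 : (z, false) ∈ S.erase (ga v) := Finset.mem_erase.mpr ⟨hz2', hz2⟩
  cases n with
  | zero =>
    rw [F_zero, X_apply] at h
    by_cases hs : ga v ∈ S
    · rw [if_pos hs] at h
      exact h (hG 0 _ e1)
    · rw [if_neg hs] at h
      exact h rfl
  | succ k =>
    rw [F_succ, X_apply] at h
    by_cases hs : ga v ∈ S
    · rw [if_pos hs, Pi.add_apply, hG (k + 1) _ e1, zero_add, Finset.sum_apply] at h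
      apply h
      apply Finset.sum_eq_zero
      intro i hi
      exact ih i hi _ e1 e2 k rfl
    · rw [if_neg hs] at h
      exact h rfl

/-- The chain is supported on sets without complementary labels. -/
theorem F_supp (a b : Finset α → Fin m) (hne : ∀ v, a v ≠ b v)
    (hab : ∀ v i, a (insert i v) = a v ∨ b (insert i v) = b v)
    (n : ℕ) (v D : Finset α) (S : Finset (Fin m × Bool)) (z : Fin m)
    (hz1 : (z, true) ∈ S) (hz2 : (z, false) ∈ S) :
    F (fun v => (a v, true)) (fun v => (b v, false)) n v D S = 0 := by
  induction n generalizing v D S with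
  | zero =>
    by_contra h
    have h1 := F_supp_aux (fun v => (a v, true)) (fun v => (b v, false)) (fun _ => rfl) 0 v D S z
      hz1 hz2 (by intro i _ S _ _ k hk; omega) h rfl
    rw [F_zero, G_zero, X_comm, ← G_zero (fun v => (a v, true)) v D] at h
    rw [X_apply] at h
    by_cases hs : (b v, false) ∈ S
    · rw [if_pos hs] at h
      have h2 := G_supp (fun v => (a v, true)) (fun s => s.2 = true) (fun _ => rfl) 0 v D _ h
      have h3 : b v = z := by
        by_contra hc
        have := h2 (z, false) (Finset.mem_erase.mpr
          ⟨fun e => hc (Prod.ext_iff.mp e).1.symm, hz2⟩)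
        simp at this
      exact hne v ((Prod.ext_iff.mp h1).1.trans h3.symm)
    · rw [if_neg hs] at h
      exact h rfl
  | succ n ih =>
    by_contra h
    have h1 := F_supp_aux (fun v => (a v, true)) (fun v => (b v, false)) (fun _ => rfl) (n + 1)
      v D S z hz1 hz2
      (by
        intro i _ S hS1 hS2 k hk
        have hk' : k = n := by omega
        subst hk'
        exact ih _ _ S hS1 hS2) h rfl
    rw [F_comm (fun v => (a v, true)) (fun v => (b v, false))
      (fun v i => (hab v i).imp (fun e => by rw [e]) (fun e => by rw [e]))] at h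
    rw [F_succ, X_apply] at h
    by_cases hs : (b v, false) ∈ S
    · rw [if_pos hs] at h
      have h3 : b v = z := by
        by_contra hc
        have e1 : (z, true) ∈ S.erase (b v, false) :=
          Finset.mem_erase.mpr ⟨fun e => by simp at e, hz1⟩
        have e2 : (z, false) ∈ S.erase (b v, false) :=
          Finset.mem_erase.mpr ⟨fun e => hc (Prod.ext_iff.mp e).1.symm, hz2⟩
        apply h
        rw [Pi.add_apply]
        have hG : G (fun v => (a v, true)) (n + 1) v D (S.erase (b v, false)) = 0 := by
          by_contra hc2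
          have := G_supp (fun v => (a v, true)) (fun s => s.2 = true) (fun _ => rfl) _ v D _ hc2
            (z, false) e2
          simp at this
        rw [hG, zero_add, Finset.sum_apply]
        apply Finset.sum_eq_zero
        intro i _
        rw [F_comm (fun v => (b v, false)) (fun v => (a v, true))
          (fun v i => (hab v i).symm.imp (fun e => by rw [e]) (fun e => by rw [e]))]
        exact ih _ _ _ e1 e2
      exact hne v ((Prod.ext_iff.mp h1).1.trans h3.symm)
    · rw [if_neg hs] at h
      exact h rfl

/-- change of sign of a label. -/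
def flip (s : Fin m × Bool) : Fin m × Bool := (s.1, !s.2)

theorem flip_flip (s : Fin m × Bool) : flip (flip s) = s := by
  simp [flip]

theorem flip_inj : Function.Injective (flip : Fin m × Bool → Fin m × Bool) :=
  Function.LeftInverse.injective flip_flip

/-- change of all signs. -/
def sw : (Finset (Fin m × Bool) → ZMod 2) →ₗ[ZMod 2] (Finset (Fin m × Bool) → ZMod 2) where
  toFun f := fun S => f (S.image flip)
  map_add' f g := rfl
  map_smul' c f := rfl

theorem sw_apply (f : Finset (Fin m × Bool) → ZMod 2) (S : Finset (Fin m × Bool)) :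
    sw f S = f (S.image flip) := rfl

theorem mem_image_flip (s : Fin m × Bool) (S : Finset (Fin m × Bool)) :
    s ∈ S.image flip ↔ flip s ∈ S := by
  constructor
  · intro h
    obtain ⟨t, ht, rfl⟩ := Finset.mem_image.mp h
    rwa [flip_flip]
  · intro h
    exact Finset.mem_image.mpr ⟨flip s, h, flip_flip s⟩

theorem sw_X (s : Fin m × Bool) (f : Finset (Fin m × Bool) → ZMod 2) :
    sw (X s f) = X (flip s) (sw f) := by
  funext S
  rw [sw_apply, X_apply, X_apply, sw_apply]
  by_cases h : flip s ∈ S
  · rw [if_pos ((mem_image_flip s S).mpr h), if_pos h]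
    congr 1
    ext t
    simp only [Finset.mem_erase, mem_image_flip]
    constructor
    · rintro ⟨h1, h2⟩
      exact ⟨fun e => h1 (flip_inj e), h2⟩
    · rintro ⟨h1, h2⟩
      exact ⟨fun e => h1 (by rw [e]), h2⟩
  · rw [if_neg (fun hc => h ((mem_image_flip s S).mp hc)), if_neg h]

theorem sw_one : sw (one : Finset (Fin m × Bool) → ZMod 2) = one := by
  funext S
  rw [sw_apply]
  simp [one]

end signed

end Pool.Agent.Norine
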