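import Pool.Agent.Lib_norine.Core

set_option autoImplicit false
set_option linter.unusedSectionVars false

/-!
The alternating functional and the final contradiction.
-/

namespace Pool.Agent.Norine

open Finset

variable {m : ℕ}

/-- presence of the label number k with sign e. -/
def Pres (S : Finset (Fin m × Bool)) (k : ℕ) (e : Bool) : Prop :=
  ∃ h : k < m, ((⟨k, h⟩ : Fin m), e) ∈ S

instance (S : Finset (Fin m × Bool)) (k : ℕ) (e : Bool) : Decidable (Pres S k e) := by
  unfold Pres; infer_instance

/-- the signs of the labels below k, read from the top, alternate starting with e. -/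
def Q (S : Finset (Fin m × Bool)) : ℕ → Bool → ZMod 2
  | 0, _ => 1
  | k + 1, e => if Pres S k e then (if Pres S k (!e) then 0 else Q S k (!e))
      else if Pres S k (!e) then 0 else Q S k e

theorem Q_zero (S : Finset (Fin m × Bool)) (e : Bool) : Q S 0 e = 1 := rfl

theorem Q_succ (S : Finset (Fin m × Bool)) (k : ℕ) (e : Bool) :
    Q S (k + 1) e = if Pres S k e then (if Pres S k (!e) then 0 else Q S k (!e))
      else if Pres S k (!e) then 0 else Q S k e := rfl

theorem Q_congr (S T : Finset (Fin m × Bool)) (k : ℕ)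
    (h : ∀ s : Fin m × Bool, s.1.val < k → (s ∈ S ↔ s ∈ T)) (e : Bool) : Q S k e = Q T k e := by
  induction k generalizing e with
  | zero => rfl
  | succ k ih =>
    have hp : ∀ e, Pres S k e ↔ Pres T k e := by
      intro e
      unfold Pres
      constructor
      · rintro ⟨hk, hs⟩; exact ⟨hk, (h _ (Nat.lt_succ_self k)).mp hs⟩
      · rintro ⟨hk, hs⟩; exact ⟨hk, (h _ (Nat.lt_succ_self k)).mpr hs⟩
    have ih' := ih (fun s hs => h s (Nat.lt_succ_of_lt hs))
    rw [Q_succ, Q_succ, ih' e, ih' (!e)]
    simp only [hp]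

theorem Q_erase_top (S : Finset (Fin m × Bool)) (k : ℕ) (s : Fin m × Bool) (hs : s.1.val = k)
    (e : Bool) : Q (S.erase s) k e = Q S k e := by
  apply Q_congr
  intro t ht
  rw [Finset.mem_erase]
  constructor
  · exact fun h => h.2
  · intro h
    refine ⟨?_, h⟩
    rintro rfl
    omega

theorem Pres_erase_lt (S : Finset (Fin m × Bool)) (k : ℕ) (s : Fin m × Bool) (hs : s.1.val < k)
    (e : Bool) : Pres (S.erase s) k e ↔ Pres S k e := by
  unfold Pres
  constructor
  · rintro ⟨hk, h⟩; exact ⟨hk, (Finset.mem_erase.mp h).2⟩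
  · rintro ⟨hk, h⟩
    refine ⟨hk, Finset.mem_erase.mpr ⟨?_, h⟩⟩
    rintro rfl
    simp at hs

theorem Pres_erase_self (S : Finset (Fin m × Bool)) (k : ℕ) (hk : k < m) (e : Bool) :
    ¬ Pres (S.erase (⟨k, hk⟩, e)) k e := by
  rintro ⟨_, h⟩
  simp at h

theorem Pres_erase_other (S : Finset (Fin m × Bool)) (k : ℕ) (hk : k < m) (e : Bool) :
    Pres (S.erase (⟨k, hk⟩, e)) k (!e) ↔ Pres S k (!e) := by
  unfold Pres
  constructor
  · rintro ⟨hk, h⟩; exact ⟨hk, (Finset.mem_erase.mp h).2⟩
  · rintro ⟨hk, h⟩
    refine ⟨hk, Finset.mem_erase.mpr ⟨?_, h⟩⟩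
    intro heq
    have := (Prod.ext_iff.mp heq).2
    simp at this

theorem filter_succ_pres (S : Finset (Fin m × Bool)) (k : ℕ) (hk : k < m) (e : Bool)
    (h1 : ((⟨k, hk⟩ : Fin m), e) ∈ S) (h2 : ¬ Pres S k (!e)) :
    S.filter (fun s => s.1.val < k + 1)
      = insert ((⟨k, hk⟩ : Fin m), e) (S.filter (fun s => s.1.val < k)) := by
  ext ⟨z, c⟩
  simp only [Finset.mem_filter, Finset.mem_insert]
  constructor
  · rintro ⟨hs, hz⟩
    by_cases hzk : z.val < k
    · exact Or.inr ⟨hs, hzk⟩
    · left
      have hze : z = ⟨k, hk⟩ := Fin.ext (by simp only; omega)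
      subst hze
      by_cases hc : c = e
      · rw [hc]
      · exfalso
        apply h2
        refine ⟨hk, ?_⟩
        have : c = !e := by cases c <;> cases e <;> simp_all
        rw [← this]; exact hs
  · rintro (h | ⟨hs, hz⟩)
    · have hz : z = ⟨k, hk⟩ := (Prod.ext_iff.mp h).1
      rw [h, hz]
      exact ⟨h1, by simp⟩
    · exact ⟨hs, by omega⟩

theorem filter_succ_none (S : Finset (Fin m × Bool)) (k : ℕ)
    (h : ∀ e, ¬ Pres S k e) :
    S.filter (fun s => s.1.val < k + 1) = S.filter (fun s => s.1.val < k) := by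
  ext ⟨z, c⟩
  simp only [Finset.mem_filter]
  constructor
  · rintro ⟨hs, hz⟩
    refine ⟨hs, ?_⟩
    by_contra hzk
    have hk : k = z.val := by omega
    apply h c
    unfold Pres
    subst hk
    exact ⟨z.isLt, by simpa using hs⟩
  · rintro ⟨hs, hz⟩
    exact ⟨hs, by omega⟩

/-- deletion identity for alternating sets. -/
theorem Q_sum (S : Finset (Fin m × Bool))
    (hgood : ∀ z : Fin m, ¬ ((z, true) ∈ S ∧ (z, false) ∈ S)) (k : ℕ) (e : Bool) :
    ∑ s ∈ S.filter (fun s => s.1.val < k), Q (S.erase s) k e = Q S k e + Q S k (!e) := by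
  have hg : ∀ k e, Pres S k e → ¬ Pres S k (!e) := by
    rintro k e ⟨hk, h1⟩ ⟨_, h2⟩
    apply hgood ⟨k, hk⟩
    cases e
    · exact ⟨h2, h1⟩
    · exact ⟨h1, h2⟩
  induction k generalizing e with
  | zero =>
    simp only [Nat.not_lt_zero, Finset.filter_false, Finset.sum_empty, Q_zero]
    decide
  | succ k ih =>
    by_cases h1 : Pres S k e
    · obtain ⟨hk, hs⟩ := h1
      have h1 : Pres S k e := ⟨hk, hs⟩
      have h2 := hg k e h1
      rw [filter_succ_pres S k hk e hs h2, Finset.sum_insert (by simp)]
      have e1 : Q (S.erase (⟨k, hk⟩, e)) (k + 1) e = Q S k e := by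
        rw [Q_succ, if_neg (Pres_erase_self S k hk e),
          if_neg (fun h => h2 ((Pres_erase_other S k hk e).mp h)), Q_erase_top _ _ _ rfl]
      have e2 : ∀ s ∈ S.filter (fun s => s.1.val < k), Q (S.erase s) (k + 1) e
          = Q (S.erase s) k (!e) := by
        intro s hs'
        have hlt := (Finset.mem_filter.mp hs').2
        rw [Q_succ, if_pos ((Pres_erase_lt S k s hlt e).mpr h1),
          if_neg (fun h => h2 ((Pres_erase_lt S k s hlt _).mp h))]
      rw [e1, Finset.sum_congr rfl e2, ih, Bool.not_not]
      rw [Q_succ, if_pos h1, if_neg h2, Q_succ, if_neg h2, Bool.not_not, if_pos h1, add_zero]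
      rw [add_comm (Q S k !e), ← add_assoc, add_self2, zero_add]
    · by_cases h2 : Pres S k (!e)
      · obtain ⟨hk, hs⟩ := h2
        have h2 : Pres S k (!e) := ⟨hk, hs⟩
        have h1' : ¬ Pres S k (!(!e)) := by rw [Bool.not_not]; exact h1
        rw [filter_succ_pres S k hk (!e) hs h1', Finset.sum_insert (by simp)]
        have hself := Pres_erase_self S k hk (!e)
        have hoth : ¬ Pres (S.erase (⟨k, hk⟩, !e)) k e := by
          intro h
          have := (Pres_erase_other S k hk (!e))
          rw [Bool.not_not] at this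
          exact h1 (this.mp h)
        have e1 : Q (S.erase (⟨k, hk⟩, !e)) (k + 1) e = Q S k e := by
          rw [Q_succ, if_neg hoth, if_neg hself, Q_erase_top _ _ _ rfl]
        have e2 : ∀ s ∈ S.filter (fun s => s.1.val < k), Q (S.erase s) (k + 1) e = 0 := by
          intro s hs'
          have hlt := (Finset.mem_filter.mp hs').2
          rw [Q_succ, if_neg (fun h => h1 ((Pres_erase_lt S k s hlt _).mp h)),
            if_pos ((Pres_erase_lt S k s hlt _).mpr h2)]
        rw [e1, Finset.sum_congr rfl e2, Finset.sum_const_zero, add_zero]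
        rw [Q_succ, if_neg h1, if_pos h2, Q_succ, if_pos h2, if_neg h1', Bool.not_not, zero_add]
      · have hnone : ∀ c, ¬ Pres S k c := by
          intro c
          by_cases hc : c = e
          · rw [hc]; exact h1
          · have : c = !e := by cases c <;> cases e <;> simp_all
            rw [this]; exact h2
        rw [filter_succ_none S k hnone]
        have e2 : ∀ s ∈ S.filter (fun s => s.1.val < k), Q (S.erase s) (k + 1) e
            = Q (S.erase s) k e := by
          intro s hs'
          have hlt := (Finset.mem_filter.mp hs').2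
          rw [Q_succ, if_neg (fun h => h1 ((Pres_erase_lt S k s hlt _).mp h)),
            if_neg (fun h => h2 ((Pres_erase_lt S k s hlt _).mp h))]
        rw [Finset.sum_congr rfl e2, ih, Q_succ, if_neg h1, if_neg h2, Q_succ, if_neg h2,
          if_neg (by rw [Bool.not_not]; exact h1)]

theorem Q_sum_all (S : Finset (Fin m × Bool))
    (hgood : ∀ z : Fin m, ¬ ((z, true) ∈ S ∧ (z, false) ∈ S)) (e : Bool) :
    ∑ s ∈ S, Q (S.erase s) m e = Q S m e + Q S m (!e) := by
  have := Q_sum S hgood m e
  rwa [Finset.filter_true_of_mem (fun s _ => s.1.isLt)] at this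

/-- sets with only one sign. -/
theorem Q_pure_opp (S : Finset (Fin m × Bool)) (c : Bool) (hS : ∀ s ∈ S, s.2 = c) (k : ℕ)
    (h : Q S k (!c) ≠ 0) : ∀ s ∈ S, ¬ s.1.val < k := by
  have hno : ∀ k, ¬ Pres S k (!c) := by
    rintro k ⟨hk, hs⟩
    have := hS _ hs
    simp at this
  induction k with
  | zero => intro s _; omega
  | succ k ih =>
    rw [Q_succ, if_neg (hno k), Bool.not_not] at h
    by_cases hp : Pres S k c
    · rw [if_pos hp] at h; exact absurd rfl h
    · rw [if_neg hp] at h
      intro s hs hlt
      have h1 := ih h s hs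
      have hk : k = s.1.val := by omega
      apply hp
      subst hk
      refine ⟨s.1.isLt, ?_⟩
      have h2 := hS s hs
      rw [← h2]
      simpa using hs

theorem Q_pure (S : Finset (Fin m × Bool)) (c : Bool) (hS : ∀ s ∈ S, s.2 = c) (k : ℕ)
    (h : Q S k c ≠ 0) : ∀ s ∈ S, ∀ t ∈ S, s.1.val < k → t.1.val < k → s = t := by
  have hno : ∀ k, ¬ Pres S k (!c) := by
    rintro k ⟨hk, hs⟩
    have := hS _ hs
    simp at this
  induction k with
  | zero => intro s _ t _ h; omega
  | succ k ih =>
    rw [Q_succ] at h
    by_cases hp : Pres S k c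
    · rw [if_pos hp, if_neg (hno k)] at h
      have h1 := Q_pure_opp S c hS k h
      intro s hs t ht hsk htk
      have h2 := h1 s hs
      have h3 := h1 t ht
      refine Prod.ext (Fin.ext ?_) ?_
      · omega
      · rw [hS s hs, hS t ht]
    · rw [if_neg hp, if_neg (hno k)] at h
      intro s hs t ht hsk htk
      have key : ∀ s ∈ S, s.1.val < k + 1 → s.1.val < k := by
        intro s hs hlt
        by_contra hc
        have hk : k = s.1.val := by omega
        apply hp
        subst hk
        refine ⟨s.1.isLt, ?_⟩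
        rw [← hS s hs]
        simpa using hs
      exact ih h s hs t ht (key s hs hsk) (key t ht htk)

theorem Q_pure_card (S : Finset (Fin m × Bool)) (c : Bool) (hS : ∀ s ∈ S, s.2 = c)
    (hcard : 2 ≤ S.card) (e : Bool) : Q S m e = 0 := by
  by_contra h
  have h1 : ∀ s ∈ S, ∀ t ∈ S, s = t := by
    by_cases hec : e = c
    · subst hec
      intro s hs t ht
      exact Q_pure S e hS m h s hs t ht s.1.isLt t.1.isLt
    · have : e = !c := by cases c <;> cases e <;> simp_all
      subst this
      intro s hs
      exact absurd s.1.isLt (Q_pure_opp S c hS m h s hs)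
  have := Finset.card_le_one.mpr h1
  omega

theorem Q_empty (k : ℕ) (e : Bool) : Q (∅ : Finset (Fin m × Bool)) k e = 1 := by
  induction k generalizing e with
  | zero => rfl
  | succ k ih =>
    have hno : ∀ e, ¬ Pres (∅ : Finset (Fin m × Bool)) k e := by
      rintro e ⟨_, h⟩
      simp at h
    rw [Q_succ, if_neg (hno e), if_neg (hno _), ih]

theorem Q_single (z : Fin m) (c : Bool) : Q {(z, c)} m c = 1 ∧ Q {(z, c)} m (!c) = 0 := by
  have hS : ∀ s ∈ ({(z, c)} : Finset (Fin m × Bool)), s.2 = c := by
    intro s hs
    rw [Finset.mem_singleton.mp hs]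
  have h0 : Q {(z, c)} m (!c) = 0 := by
    by_contra h
    exact Q_pure_opp _ c hS m h (z, c) (Finset.mem_singleton_self _) z.isLt
  refine ⟨?_, h0⟩
  have h1 := Q_sum_all {(z, c)} (by
    rintro w ⟨h1, h2⟩
    have e1 := (Prod.ext_iff.mp (Finset.mem_singleton.mp h1)).2
    have e2 := (Prod.ext_iff.mp (Finset.mem_singleton.mp h2)).2
    simp only at e1 e2
    rw [← e1] at e2
    simp at e2) c
  rw [h0, add_zero] at h1
  rw [← h1]
  simp [Q_empty]

theorem Pres_flip (S : Finset (Fin m × Bool)) (k : ℕ) (e : Bool) :
    Pres (S.image flip) k e ↔ Pres S k (!e) := by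
  unfold Pres
  simp only [mem_image_flip]
  rfl

theorem Q_flip (S : Finset (Fin m × Bool)) (k : ℕ) (e : Bool) :
    Q (S.image flip) k e = Q S k (!e) := by
  induction k generalizing e with
  | zero => rfl
  | succ k ih =>
    rw [Q_succ, Q_succ, ih, ih]
    simp only [Pres_flip]

/-- the alternating functional. -/
def Lf (e : Bool) : (Finset (Fin m × Bool) → ZMod 2) →ₗ[ZMod 2] ZMod 2 where
  toFun f := ∑ S : Finset (Fin m × Bool), f S * Q S m e
  map_add' f g := by
    simp [add_mul, Finset.sum_add_distrib]
  map_smul' c f := by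
    simp [Finset.mul_sum, mul_assoc]

theorem Lf_apply (e : Bool) (f : Finset (Fin m × Bool) → ZMod 2) :
    Lf e f = ∑ S : Finset (Fin m × Bool), f S * Q S m e := rfl

theorem Lf_B (e : Bool) (f : Finset (Fin m × Bool) → ZMod 2)
    (hf : ∀ S z, (z, true) ∈ S → (z, false) ∈ S → f S = 0) :
    Lf e (B f) = Lf e f + Lf (!e) f := by
  rw [Lf_apply, Lf_apply, Lf_apply, ← Finset.sum_add_distrib]
  have h1 : ∑ S : Finset (Fin m × Bool), B f S * Q S m e
      = ∑ T : Finset (Fin m × Bool), ∑ s ∈ T, f T * Q (T.erase s) m e := by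
    simp only [B_apply, Finset.sum_mul]
    rw [Finset.sum_sigma', Finset.sum_sigma']
    apply Finset.sum_nbij' (i := fun p => (⟨insert p.2 p.1, p.2⟩ : Σ _ : Finset (Fin m × Bool), Fin m × Bool))
      (j := fun p => ⟨p.1.erase p.2, p.2⟩)
    · rintro ⟨S, s⟩ h
      simp
    · rintro ⟨T, s⟩ h
      simp
    · rintro ⟨S, s⟩ h
      have hs : s ∉ S := by simpa using h
      simp [Finset.erase_insert hs]
    · rintro ⟨T, s⟩ h
      have hs : s ∈ T := by simpa using h
      simp [Finset.insert_erase hs]
    · rintro ⟨S, s⟩ h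
      have hs : s ∉ S := by simpa using h
      simp [Finset.erase_insert hs]
  rw [h1]
  apply Finset.sum_congr rfl
  intro T _
  rw [← Finset.mul_sum, ← mul_add]
  by_cases hg : ∀ z : Fin m, ¬ ((z, true) ∈ T ∧ (z, false) ∈ T)
  · rw [Q_sum_all T hg e]
  · push Not at hg
    obtain ⟨z, hz1, hz2⟩ := hg
    rw [hf T z hz1 hz2, zero_mul, zero_mul]

theorem Lf_sw (e : Bool) (f : Finset (Fin m × Bool) → ZMod 2) : Lf e (sw f) = Lf (!e) f := by
  rw [Lf_apply, Lf_apply]
  have himg : ∀ S : Finset (Fin m × Bool), (S.image flip).image flip = S := by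
    intro S
    ext s
    rw [mem_image_flip, mem_image_flip, flip_flip]
  apply Finset.sum_nbij' (i := fun S => S.image flip) (j := fun S => S.image flip)
  · intro S _; exact Finset.mem_univ _
  · intro S _; exact Finset.mem_univ _
  · intro S _; exact himg S
  · intro S _; exact himg S
  · intro S _
    rw [sw_apply, Q_flip, Bool.not_not]

section cube

variable {α : Type} [DecidableEq α]

theorem Lf_G (g : Finset α → Fin m × Bool) (c : Bool) (hg : ∀ v, (g v).2 = c) (n : ℕ)
    (v D : Finset α) (e : Bool) : Lf e (G g (n + 1) v D) = 0 := by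
  rw [Lf_apply]
  apply Finset.sum_eq_zero
  intro S _
  by_cases h : G g (n + 1) v D S = 0
  · rw [h, zero_mul]
  · rw [Q_pure_card S c (G_supp g (fun s => s.2 = c) hg _ v D S h)
      (by rw [G_card g _ v D S h]; omega) e, mul_zero]

theorem Lf_G_zero (g : Finset α → Fin m × Bool) (v D : Finset α) (e : Bool) :
    Lf e (G g 0 v D) = Q {g v} m e := by
  rw [Lf_apply, Finset.sum_eq_single ({g v} : Finset (Fin m × Bool))]
  · simp [G_zero, X_apply, one]
  · intro S _ hS
    rw [G_zero, X_apply]
    by_cases hs : g v ∈ S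
    · rw [if_pos hs]
      have : S.erase (g v) ≠ ∅ := by
        intro h0
        apply hS
        rw [← Finset.insert_erase hs, h0]
        rfl
      simp [one, this]
    · rw [if_neg hs, zero_mul]
  · intro h; exact absurd (Finset.mem_univ _) h

theorem compl_facet [Fintype α] (v D : Finset α) (hv : Disjoint v D) (i : α) (hi : i ∈ D) :
    insert i (v ∪ D)ᶜ = (v ∪ D.erase i)ᶜ := by
  ext x
  simp only [Finset.mem_insert, Finset.mem_compl, Finset.mem_union, Finset.mem_erase, not_or,
    not_and]
  have hiv : i ∉ v := fun h => Finset.disjoint_left.mp hv h hi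
  by_cases hx : x = i
  · subst hx; simp [hiv]
  · simp [hx]

theorem sw_G [Fintype α] (g : Finset α → Fin m × Bool) (n : ℕ) (v D : Finset α)
    (hD : D.card = n) (hv : Disjoint v D) :
    sw (G g n v D) = G (fun u => flip (g uᶜ)) n (v ∪ D)ᶜ D := by
  induction n generalizing v D with
  | zero =>
    have : D = ∅ := Finset.card_eq_zero.mp hD
    subst this
    rw [G_zero, sw_X, sw_one, G_zero]
    simp
  | succ n ih =>
    rw [G_back g n v D hD, sw_X, map_sum, G_succ, compl_compl]
    congr 1
    apply Finset.sum_congr rfl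
    intro i hi
    rw [ih v (D.erase i) (by rw [Finset.card_erase_of_mem hi, hD]; rfl)
      (hv.mono_right (Finset.erase_subset _ _)), compl_facet v D hv i hi]

theorem sw_F [Fintype α] (ga gb : Finset α → Fin m × Bool) (n : ℕ) (v D : Finset α)
    (hD : D.card = n) (hv : Disjoint v D) :
    sw (F ga gb n v D)
      = F (fun u => flip (gb uᶜ)) (fun u => flip (ga uᶜ)) n (v ∪ D)ᶜ D := by
  induction n generalizing v D with
  | zero =>
    have : D = ∅ := Finset.card_eq_zero.mp hD
    subst this
    rw [F_back_zero, sw_X, G_zero, sw_X, sw_one, F_zero, G_zero]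
    simp
  | succ n ih =>
    rw [F_back ga gb n v D hD, sw_X, map_add, map_sum, sw_G ga (n + 1) v D hD hv, F_succ,
      compl_compl]
    congr 2
    apply Finset.sum_congr rfl
    intro i hi
    rw [ih v (D.erase i) (by rw [Finset.card_erase_of_mem hi, hD]; rfl)
      (hv.mono_right (Finset.erase_subset _ _)), compl_facet v D hv i hi]

/-- There is no antipodal system on the faces of a cube. -/
theorem no_system (U : Finset α) : ∀ Θ : Finset α → Finset α → ZMod 2,
    (∀ v D : Finset α, v ⊆ U → D ⊆ U → Disjoint v D →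
      ∑ i ∈ D, (Θ (insert i v) (D.erase i) + Θ v (D.erase i)) + (if D = ∅ then 1 else 0)
        = Θ v D + Θ (U \ (v ∪ D)) D) → False := by
  induction U using Finset.induction_on with
  | empty =>
    intro Θ h
    have := h ∅ ∅ (Finset.Subset.refl _) (Finset.Subset.refl _) (by simp)
    simp only [Finset.sum_empty, if_true, zero_add, Finset.union_empty, Finset.sdiff_self,
      add_self2] at this
    exact one_ne_zero this
  | insert x U hx ih =>
    intro Θ h
    apply ih (fun v D => if Even D.card then Θ v D + Θ v (insert x D)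
      else Θ (insert x v) D + Θ v (insert x D))
    intro v D hvU hDU hvD
    have hxv : x ∉ v := fun hh => hx (hvU hh)
    have hxD : x ∉ D := fun hh => hx (hDU hh)
    have hvU' : v ⊆ insert x U := hvU.trans (Finset.subset_insert _ _)
    have hDU' : D ⊆ insert x U := hDU.trans (Finset.subset_insert _ _)
    have h0 := h v D hvU' hDU' hvD
    have h1 := h (insert x v) D (Finset.insert_subset (Finset.mem_insert_self _ _) hvU') hDU'
      (by rw [Finset.disjoint_insert_left]; exact ⟨hxD, hvD⟩)
    have h2 := h v (insert x D) hvU' (Finset.insert_subset (Finset.mem_insert_self _ _) hDU')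
      (by rw [Finset.disjoint_insert_right]; exact ⟨hxv, hvD⟩)
    set w := U \ (v ∪ D) with hw
    have e0 : insert x U \ (v ∪ D) = insert x w := by
      rw [hw, Finset.insert_sdiff_of_notMem]
      simp [hxv, hxD]
    have e1 : insert x U \ (insert x v ∪ D) = w := by
      rw [hw]
      ext y
      simp only [Finset.mem_sdiff, Finset.mem_insert, Finset.mem_union, not_or]
      constructor
      · rintro ⟨k1, ⟨k2, k3⟩, k4⟩
        exact ⟨k1.resolve_left k2, k3, k4⟩
      · rintro ⟨k1, k3, k4⟩
        refine ⟨Or.inr k1, ⟨?_, k3⟩, k4⟩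
        rintro rfl
        exact hx k1
    have e2 : insert x U \ (v ∪ insert x D) = w := by
      rw [hw]
      ext y
      simp only [Finset.mem_sdiff, Finset.mem_insert, Finset.mem_union, not_or]
      constructor
      · rintro ⟨k1, k3, k2, k4⟩
        exact ⟨k1.resolve_left k2, k3, k4⟩
      · rintro ⟨k1, k3, k4⟩
        refine ⟨Or.inr k1, k3, ?_, k4⟩
        rintro rfl
        exact hx k1
    rw [e0] at h0
    rw [e1] at h1
    rw [e2, Finset.sum_insert hxD, Finset.erase_insert hxD,
      if_neg (Finset.insert_ne_empty x D), add_zero] at h2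
    have hne : ∀ i ∈ D, i ≠ x := by
      rintro i hi rfl
      exact hxD hi
    have h1' : ∑ i ∈ D, (Θ (insert x (insert i v)) (D.erase i) + Θ (insert x v) (D.erase i))
        + (if D = ∅ then 1 else 0) = Θ (insert x v) D + Θ w D := by
      rw [← h1]
      congr 1
      apply Finset.sum_congr rfl
      intro i _
      rw [Finset.insert_comm]
    have h2' : Θ (insert x v) D + Θ v D
        + ∑ i ∈ D, (Θ (insert i v) (insert x (D.erase i)) + Θ v (insert x (D.erase i)))
        = Θ v (insert x D) + Θ w (insert x D) := by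
      rw [← h2]
      congr 1
      apply Finset.sum_congr rfl
      intro i hi
      rw [Finset.erase_insert_of_ne (hne i hi).symm]
    have hcard : ∀ i ∈ D, (Even (D.erase i).card ↔ ¬ Even D.card) := by
      intro i hi
      have := Finset.card_erase_add_one hi
      rw [← this, Nat.even_add_one]
      tauto
    have h2s : ∀ x : ZMod 2, x + x = 0 := add_self2
    by_cases hev : Even D.card
    · have hs : ∑ i ∈ D, ((if Even (D.erase i).card then
            Θ (insert i v) (D.erase i) + Θ (insert i v) (insert x (D.erase i))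
            else Θ (insert x (insert i v)) (D.erase i) + Θ (insert i v) (insert x (D.erase i)))
          + (if Even (D.erase i).card then Θ v (D.erase i) + Θ v (insert x (D.erase i))
            else Θ (insert x v) (D.erase i) + Θ v (insert x (D.erase i))))
          = ∑ i ∈ D, (Θ (insert x (insert i v)) (D.erase i) + Θ (insert x v) (D.erase i))
            + ∑ i ∈ D, (Θ (insert i v) (insert x (D.erase i)) + Θ v (insert x (D.erase i))) := by
        rw [← Finset.sum_add_distrib]
        apply Finset.sum_congr rfl
        intro i hi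
        have := (hcard i hi).not.mpr (not_not.mpr hev)
        rw [if_neg this, if_neg this]
        ring
      rw [hs, if_pos hev, if_pos hev]
      have hcalc : ∀ A Bs I p q r s t u : ZMod 2, A + I = p + q → p + r + Bs = s + t →
          u = r → A + Bs + I = u + s + (q + t) := by decide
      exact hcalc _ _ _ _ _ _ _ _ _ h1' h2' rfl
    · have hs : ∑ i ∈ D, ((if Even (D.erase i).card then
            Θ (insert i v) (D.erase i) + Θ (insert i v) (insert x (D.erase i))
            else Θ (insert x (insert i v)) (D.erase i) + Θ (insert i v) (insert x (D.erase i)))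
          + (if Even (D.erase i).card then Θ v (D.erase i) + Θ v (insert x (D.erase i))
            else Θ (insert x v) (D.erase i) + Θ v (insert x (D.erase i))))
          = ∑ i ∈ D, (Θ (insert i v) (D.erase i) + Θ v (D.erase i))
            + ∑ i ∈ D, (Θ (insert i v) (insert x (D.erase i)) + Θ v (insert x (D.erase i))) := by
        rw [← Finset.sum_add_distrib]
        apply Finset.sum_congr rfl
        intro i hi
        have := (hcard i hi).mpr hev
        rw [if_pos this, if_pos this]
        ring
      rw [hs, if_neg hev, if_neg hev]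
      have hcalc : ∀ A Bs I p q r s t : ZMod 2, A + I = p + q → r + p + Bs = s + t →
          A + Bs + I = r + s + (q + t) := by decide
      exact hcalc _ _ _ _ _ _ _ _ h0 h2'

/-- MAIN THEOREM (labelled form): a labelling of the vertices of a cube such that on every
edge the label or the antipodal label does not change gives some antipodal pair equal labels. -/
theorem labels_fin [Fintype α] (R : Finset α → Fin m)
    (hR : ∀ v i, R (insert i v) = R v ∨ R (insert i v)ᶜ = R vᶜ) : ∃ v, R v = R vᶜ := by
  by_contra hne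
  push Not at hne
  set ga : Finset α → Fin m × Bool := fun v => (R v, true) with hga
  set gb : Finset α → Fin m × Bool := fun v => (R vᶜ, false) with hgb
  have hsupp : ∀ n v D S z, (z, true) ∈ S → (z, false) ∈ S → F ga gb n v D S = 0 :=
    fun n v D S z h1 h2 => F_supp R (fun v => R vᶜ) hne hR n v D S z h1 h2
  have hfa : (fun u : Finset α => flip (gb uᶜ)) = ga := by
    funext u
    simp [hgb, hga, flip]
  have hfb : (fun u : Finset α => flip (ga uᶜ)) = gb := by
    funext u
    simp [hgb, hga, flip]
  apply no_system (Finset.univ : Finset α) (fun v D => Lf true (F ga gb D.card v D))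
  intro v D _ _ hvD
  have hsw : Lf true (F ga gb D.card (Finset.univ \ (v ∪ D)) D)
      = Lf false (F ga gb D.card v D) := by
    rw [← Finset.compl_eq_univ_sdiff]
    have := sw_F ga gb D.card v D rfl hvD
    rw [hfa, hfb] at this
    rw [← this, Lf_sw]
    rfl
  have hB := Lf_B true (F ga gb D.card v D) (fun S z h1 h2 => hsupp _ v D S z h1 h2)
  rw [hsw, ← Bool.not_true, ← hB]
  rcases Nat.eq_zero_or_pos D.card with h0 | hpos
  · have hD : D = ∅ := Finset.card_eq_zero.mp h0
    subst hD
    rw [Finset.card_empty, B_F_zero, map_add, Lf_G_zero, Lf_G_zero]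
    simp only [Finset.sum_empty, if_true, zero_add]
    rw [show ga v = (R v, true) from rfl, show gb v = (R vᶜ, false) from rfl,
      (Q_single (R v) true).1]
    have := (Q_single (R vᶜ) false).2
    rw [Bool.not_false] at this
    rw [this, add_zero]
  · obtain ⟨n, hn⟩ : ∃ n, D.card = n + 1 := ⟨D.card - 1, by omega⟩
    have hne' : D ≠ ∅ := by
      rintro rfl
      simp at hn
    rw [if_neg hne', add_zero, hn, B_F ga gb n v D hn hvD, map_add, map_add,
      Lf_G ga true (fun _ => rfl), Lf_G gb false (fun _ => rfl), zero_add, zero_add, map_sum]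
    apply Finset.sum_congr rfl
    intro i hi
    have : (D.erase i).card = n := by rw [Finset.card_erase_of_mem hi, hn]; rfl
    rw [this, map_add]

/-- the same with arbitrary labels. -/
theorem labels [Fintype α] {Z : Type*} (R : Finset α → Z)
    (hR : ∀ v i, R (insert i v) = R v ∨ R (insert i v)ᶜ = R vᶜ) : ∃ v, R v = R vᶜ := by
  classical
  have hfin : (Set.range R).Finite := Set.finite_range R
  have : Fintype (Set.range R) := hfin.fintype
  let eq := Fintype.equivFin (Set.range R)
  obtain ⟨v, hv⟩ := labels_fin (m := Fintype.card (Set.range R))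
    (fun v => eq ⟨R v, Set.mem_range_self v⟩)
    (fun v i => (hR v i).imp (fun h => congrArg eq (Subtype.ext h))
      (fun h => congrArg eq (Subtype.ext h)))
  refine ⟨v, ?_⟩
  have := eq.injective hv
  exact congrArg Subtype.val this

end cube

end Pool.Agent.Norine
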